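import Mathlib
import Pool.Agent.N824.C2.CurvP

/-!
# Pinched metrics from coarse metrics

Let `X` be a closed manifold of dimension `n` and `a` a real number, for instance `a = 4`. We
consider Riemannian metrics on `X` which are induced by immersions `F : X → ℝᴺ` (for large `N` these
are all metrics, by Nash's theorem, which is not used here), with positive sectional curvature and
such that the ratio of any two sectional curvatures at the same point is less than `a`. By Gauss's
equation the sectional curvature of the plane spanned by the tangent vectors `u` and `v` is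
`⟪II(u, u), II(v, v)⟫ - |II(u, v)|²` divided by the square of the area of the parallelogram of `u`
and `v`, where the second fundamental form `II` is the normal component of the second derivative of
`F` in a parametrization of `X`; it suffices to consider vectors `u`, `v` which are orthonormal
in the parametrization.

The theorem characterizes when there is a smooth immersion `F : X → ℝᴺ` of this kind: this is
the case if and only if there are *coarse* immersions of this kind. That is, for arbitrarily small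
scales `r` (all `r` in a set `S` accumulating at `0`) there are maps `f r : X → ℝᴺ` with the following
property. They need not be continuous, they are unrelated for different `r`, and
nothing is assumed about `f r` at scales different from `r`. Near each point `x` there is
a smooth parametrization `A` of `X`, `κ`-bi-Lipschitz for some function `d(x, y)`, such that for all
`p` near `0` the map `f r ∘ A` is, on the ball of radius `κ² r` about `p`, *in the mean* within
`δ r²` of a quadratic map with first derivative `L` and second derivative `Q` at `p`, where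
`(1 + ‖L‖ + ‖Q‖) r ≤ δ τ(r)` with `τ(r) → 0`, and all `L'`, `Q'` with `‖L' - L‖` and `‖Q' - Q‖` at
most `C κ^(2n+4) δ` are the derivatives of immersions with positive sectional curvatures with
ratios less than `a` of the induced metric. Here `L`, `Q`, `δ` depend on `p` and `r` in any way and
`C` is any sufficiently large constant which depends on `n` only. The curvatures may tend to zero or
to infinity with `r`, and the metrics may degenerate.

For `a = 4` the theorem of Brendle and Schoen (which is not used here) shows that the manifold is a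
spherical space form.
-/

set_option autoImplicit false

open Set Filter Topology Metric MeasureTheory Function
open scoped Manifold ContDiff InnerProductSpace

noncomputable section

namespace Pool.Agent.Results.MP_4a593f_gt.CoarsePinching

/-- `ℝᵐ` -/
abbrev R (m : ℕ) := EuclideanSpace ℝ (Fin m)

/-- Lebesgue measure on `ℝᵐ` -/
def vol (m : ℕ) : Measure (R m) := volume

/-! In the following definitions `V = ℝⁿ` is the model space of `X`, `W = ℝᴺ` the target. A
symmetric bilinear map `V × V → W` is an element of `V →L[ℝ] V →L[ℝ] W`. -/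

section

variable {V W : Type} [NormedAddCommGroup V] [InnerProductSpace ℝ V] [FiniteDimensional ℝ V]
  [NormedAddCommGroup W] [InnerProductSpace ℝ W] [FiniteDimensional ℝ W]

/-- the inverse of the metric `⟪L u, L v⟫` induced by `L` -/
def invMetric (L : V →L[ℝ] W) : V →L[ℝ] V :=
  ContinuousLinearMap.inverse ((ContinuousLinearMap.adjoint L).comp L)

/-- the second fundamental form of a map with the derivatives `L` and `Q`: the component of
`Q u v` orthogonal to the image of `L` -/
def II (L : V →L[ℝ] W) (Q : V →L[ℝ] V →L[ℝ] W) (u v : V) : W :=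
  Q u v - L (invMetric L (ContinuousLinearMap.adjoint L (Q u v)))

/-- the numerator of the sectional curvature of the induced metric in the plane of `u` and `v`, by
Gauss's equation -/
def secNum (L : V →L[ℝ] W) (Q : V →L[ℝ] V →L[ℝ] W) (u v : V) : ℝ :=
  ⟪II L Q u u, II L Q v v⟫_ℝ - ‖II L Q u v‖ ^ 2

/-- the square of the area of the parallelogram of `L u` and `L v` -/
def areaSq (L : V →L[ℝ] W) (u v : V) : ℝ := ‖L u‖ ^ 2 * ‖L v‖ ^ 2 - ⟪L u, L v⟫_ℝ ^ 2

/-- maps with the derivatives `L` and `Q` are immersions, and the sectional curvatures of the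
induced metric (`secNum` divided by `areaSq`) are positive, with ratios less than `a` -/
def Pinched (a : ℝ) (L : V →L[ℝ] W) (Q : V →L[ℝ] V →L[ℝ] W) : Prop :=
  Injective L ∧ ∀ u v u' v' : V, ‖u‖ = 1 → ‖v‖ = 1 → ⟪u, v⟫_ℝ = 0 → ‖u'‖ = 1 → ‖v'‖ = 1 →
    ⟪u', v'⟫_ℝ = 0 → 0 < secNum L Q u v ∧
      secNum L Q u v * areaSq L u' v' < a * (secNum L Q u' v' * areaSq L u v)

/-- `Q` is symmetric -/
def Symm (Q : V →L[ℝ] V →L[ℝ] W) : Prop := ∀ u v, Q u v = Q v u

/-- all derivatives at distance at most `b` from `L` and `Q` satisfy `Pinched a` -/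
def PinchedMargin (a b : ℝ) (L : V →L[ℝ] W) (Q : V →L[ℝ] V →L[ℝ] W) : Prop :=
  ∀ (L' : V →L[ℝ] W) (Q' : V →L[ℝ] V →L[ℝ] W), Symm Q' → ‖L' - L‖ ≤ b → ‖Q' - Q‖ ≤ b →
    Pinched a L' Q'

/-- the quadratic map with the value `c` and the derivatives `L` and `Q` at `p` -/
def quad (c : W) (L : V →L[ℝ] W) (Q : V →L[ℝ] V →L[ℝ] W) (p s : V) : W :=
  c + L (s - p) + (1 / 2 : ℝ) • Q (s - p) (s - p)

/-- `h` is integrable on the ball of radius `a` about `p` and its distance to a quadratic map with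
the derivatives `L` and `Q` at `p` has integral at most `b` over this ball. -/
def QuadInMean [MeasurableSpace V] (μ : Measure V) (h : V → W) (p : V) (a b : ℝ)
    (L : V →L[ℝ] W) (Q : V →L[ℝ] V →L[ℝ] W) : Prop :=
  IntegrableOn h (closedBall p a) μ ∧ ∃ c : W, ∫ q in closedBall p a, ‖h q - quad c L Q p q‖ ∂μ ≤ b

variable {X : Type} [TopologicalSpace X] [ChartedSpace V X]

/-- smooth maps -/
def Smooth (V : Type) [NormedAddCommGroup V] [InnerProductSpace ℝ V] [ChartedSpace V X]
    (F : X → W) : Prop := ContMDiff 𝓘(ℝ, V) 𝓘(ℝ, W) ∞ F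

/-- `A` is a smooth parametrization near `x = A 0` -/
def Param (A : V → X) (x : X) : Prop :=
  A 0 = x ∧ IsLocalDiffeomorphAt 𝓘(ℝ, V) 𝓘(ℝ, V) ∞ A 0

/-- `F` is an immersion at `x` and the sectional curvatures of the induced metric at `x` are
positive with ratios less than `a` -/
def PinchedAt (V : Type) [NormedAddCommGroup V] [InnerProductSpace ℝ V] [FiniteDimensional ℝ V]
    [ChartedSpace V X] (a : ℝ) (F : X → W) (x : X) : Prop :=
  ∃ A : V → X, Param A x ∧
    Pinched a (fderiv ℝ (fun z => F (A z)) 0) (fderiv ℝ (fderiv ℝ fun z => F (A z)) 0)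

/-- `A` is `κ`-bi-Lipschitz for `d` on the ball of radius `ρ`. -/
def BiLip (d : X → X → ℝ) (A : V → X) (κ ρ : ℝ) : Prop :=
  1 ≤ κ ∧ 0 < ρ ∧ ∀ p q : V, ‖p‖ < ρ → ‖q‖ < ρ →
    d (A p) (A q) ≤ κ * ‖p - q‖ ∧ ‖p - q‖ ≤ κ * d (A p) (A q)

/-- the maps `f r` are coarse immersions inducing positive pinched sectional curvature at `x`, each
one at its scale `r ∈ S`; `n` is the dimension of `X` -/
def CoarseAt [MeasurableSpace V] (n : ℕ) (μ : Measure V) (C a : ℝ) (d : X → X → ℝ) (S : Set ℝ)
    (f : ℝ → X → W) (x : X) : Prop :=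
  ∃ (A : V → X) (κ ρ : ℝ) (τ : ℝ → ℝ), Param A x ∧ BiLip d A κ ρ ∧ Tendsto τ (𝓝[>] 0) (𝓝 0) ∧
    ∀ p, ‖p‖ < ρ → ∀ r ∈ S, 0 < r → r < ρ →
      ∃ (L : V →L[ℝ] W) (Q : V →L[ℝ] V →L[ℝ] W) (δ : ℝ), 0 ≤ δ ∧ Symm Q ∧
        (1 + ‖L‖ + ‖Q‖) * r ≤ δ * τ r ∧
        QuadInMean μ (fun z => f r (A z)) p (κ ^ 2 * r) (δ * r ^ (n + 2)) L Q ∧
        PinchedMargin a (C * κ ^ (2 * n + 4) * δ) L Q

end

theorem result (n : ℕ) : ∃ C₀ : ℝ, ∀ C : ℝ, C₀ ≤ C → ∀ (a : ℝ) (N : ℕ) (X : Type)
    [TopologicalSpace X] [T2Space X] [CompactSpace X] [ChartedSpace (R n) X]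
    [IsManifold 𝓘(ℝ, R n) ∞ X],
    (∃ F : X → R N, Smooth (R n) F ∧ ∀ x, PinchedAt (R n) a F x) ↔
      ∃ (d : X → X → ℝ) (S : Set ℝ) (f : ℝ → X → R N), (0 : ℝ) ∈ closure (S ∩ Ioi 0) ∧
        ∀ x, CoarseAt n (vol n) C a d S f x := by
  obtain ⟨C₀, hC₀⟩ := Pool.Agent.N824.C2.main2c n
  refine ⟨C₀, fun C hC a N X _ _ _ _ _ => ?_⟩
  have hmain := hC₀ C hC (R N) (Pool.Agent.N824.C2.Pinched a) (fun L Q _ h => by
    obtain ⟨b, hb, h1⟩ := Pool.Agent.N824.C2.pinched_open h
    exact ⟨b, hb, fun L' Q' _ h2 h3 => h1 L' Q' h2 h3⟩) X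
  refine Iff.trans ?_ (hmain.trans ?_)
  · constructor
    · rintro ⟨F, h1, h2⟩
      refine ⟨F, h1, fun x => ?_⟩
      obtain ⟨A, ⟨k1, k2⟩, k3⟩ := h2 x
      exact ⟨A, k1, k2, k3⟩
    · rintro ⟨F, h1, h2⟩
      refine ⟨F, h1, fun x => ?_⟩
      obtain ⟨A, k1, k2, k3⟩ := h2 x
      exact ⟨A, ⟨k1, k2⟩, k3⟩
  · constructor
    · rintro ⟨d, S, f, h1, h2⟩
      refine ⟨d, S, f, h1, fun x => ?_⟩
      obtain ⟨A, κ, ρ, τ, k1, k2, k3, k4, k5, k6, k7⟩ := h2 x
      refine ⟨A, κ, ρ, τ, ⟨k1, k2⟩, ⟨k3, k4, k6⟩, k5, fun p hp r hr h0 hrρ => ?_⟩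
      obtain ⟨L, Q, δ, c, m1, m2, m3, ⟨m4, m5⟩, m6⟩ := k7 p hp r hr h0 hrρ
      exact ⟨L, Q, δ, m1, m2, m3, ⟨m4, c, m5⟩, m6⟩
    · rintro ⟨d, S, f, h1, h2⟩
      refine ⟨d, S, f, h1, fun x => ?_⟩
      obtain ⟨A, κ, ρ, τ, ⟨k1, k2⟩, ⟨k3, k4, k6⟩, k5, k7⟩ := h2 x
      refine ⟨A, κ, ρ, τ, k1, k2, k3, k4, k5, k6, fun p hp r hr h0 hrρ => ?_⟩
      obtain ⟨L, Q, δ, m1, m2, m3, ⟨m4, c, m5⟩, m6⟩ := k7 p hp r hr h0 hrρ
      exact ⟨L, Q, δ, c, m1, m2, m3, ⟨m4, m5⟩, m6⟩

end Pool.Agent.Results.MP_4a593f_gt.CoarsePinching
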